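import Pool.Agent.Lib.ShSq.Final

/-!
# Primes `p < n` for which `⌊(n - p) / m⌋` is a square, `k ≤ 2 log n`

There are absolute constants `c > 0` and `N₀` such that for every `m ≥ 1` and every `N ≥ N₀` at
least `c N` of the integers `n ≤ N` have a prime `p < n` such that `⌊(n - p) / m⌋` is the square of
some `k ≤ 2 log n`.
-/

set_option autoImplicit false

open Finset

namespace Pool.Agent.Results.MP_65fcb1_nt.ShortSquares

open Classical in
/-- A positive proportion, uniform in `m`, of the integers `n` has a prime `p < n` such that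
`⌊(n - p) / m⌋ = k ^ 2` for some `k ≤ 2 log n`. -/
theorem result : ∃ c : ℝ, 0 < c ∧ ∃ N₀ : ℕ, ∀ N ≥ N₀, ∀ m : ℕ, 1 ≤ m →
    c * N ≤ (((Finset.Icc 1 N).filter fun n : ℕ => ∃ p k : ℕ, p.Prime ∧ p < n ∧
      (k : ℝ) ≤ 2 * Real.log n ∧ (n - p) / m = k ^ 2).card : ℝ) :=
  Pool.Agent.ShSq.final

end Pool.Agent.Results.MP_65fcb1_nt.ShortSquares
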